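import Pool.Agent.Helper79_SIU.KFM

/-!
# SIU, module LGR: the form `d^c log ρ`
-/

set_option autoImplicit false

open MeasureTheory Filter Topology

namespace Pool.Agent.SIU.H76

open Pool.Agent.SIU.H79

theorem lgr_sub : U2' ⊆ X2.U := fun _ hz => hz.1

theorem cBB : ContDiffOn ℝ ((⊤ : ℕ∞) : WithTop ℕ∞) (fun w => Real.log (BB w)) U2' :=
  contDiff_BB.contDiffOn.log fun _ hz => (BB_pos hz).ne'

theorem rho_pos {z : E7} (hz : z ∈ U2') : 0 < rho z :=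
  div_pos (mul_pos (AA_pos hz.1) (BB_pos hz)) (DD_pos hz.1)

theorem log_rho {z : E7} (hz : z ∈ U2') :
    Real.log (rho z) = (Real.log (AA z) + Real.log (BB z)) + (-1) * Real.log (DD z) := by
  unfold rho
  rw [Real.log_div (mul_pos (AA_pos hz.1) (BB_pos hz)).ne' (DD_pos hz.1).ne',
    Real.log_mul (AA_pos hz.1).ne' (BB_pos hz).ne']
  ring

theorem cA' : ContDiffOn ℝ ((⊤ : ℕ∞) : WithTop ℕ∞) (fun w => Real.log (AA w)) U2' :=
  cAA.mono lgr_sub

theorem cD' : ContDiffOn ℝ ((⊤ : ℕ∞) : WithTop ℕ∞) (fun w => Real.log (DD w)) U2' :=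
  cDD.mono lgr_sub

theorem cD'' : ContDiffOn ℝ ((⊤ : ℕ∞) : WithTop ℕ∞) (fun w => (-1) * Real.log (DD w)) U2' :=
  contDiffOn_const.mul cD'

theorem cSum : ContDiffOn ℝ ((⊤ : ℕ∞) : WithTop ℕ∞)
    (fun w => (Real.log (AA w) + Real.log (BB w)) + (-1) * Real.log (DD w)) U2' :=
  (cA'.add cBB).add cD''

theorem cRho : ContDiffOn ℝ ((⊤ : ℕ∞) : WithTop ℕ∞) (fun w => Real.log (rho w)) U2' :=
  cSum.congr fun _ hz => log_rho hz

theorem dAt {ψ : E7 → ℝ} (h : ContDiffOn ℝ ((⊤ : ℕ∞) : WithTop ℕ∞) ψ U2') {z : E7}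
    (hz : z ∈ U2') : DifferentiableAt ℝ ψ z :=
  (h.contDiffAt (isOpen_U2'.mem_nhds hz)).differentiableAt (by simp)

theorem dcr_eq (z : E7) : dcr z = - LI 7 (om (fun w => Real.log (rho w)) z) := by
  unfold dcr
  rw [← theta_eq]

theorem ext_dcr (z : E7) : extDeriv dcr z = ddc (fun w => cst 7 (Real.log (rho w))) z := by
  rw [ddc_eq]
  have h : dcr = (-1 : ℝ) • fun w => LI 7 (om (fun w => Real.log (rho w)) w) := by
    funext w
    rw [dcr_eq, Pi.smul_apply]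
    ext v
    show -(LI 7 (om (fun w => Real.log (rho w)) w) v) =
      (-1 : ℝ) * (LI 7 (om (fun w => Real.log (rho w)) w) v)
    ring
  rw [h, extDeriv_smul]
  ext v
  show (-1 : ℝ) * (_ : ℝ) = -(_ : ℝ)
  rw [neg_one_mul]

theorem ddc_congr {ψ ψ' : E7 → ℝ} {z : E7} (h : ψ =ᶠ[𝓝 z] ψ') :
    ddc (fun w => cst 7 (ψ w)) z = ddc (fun w => cst 7 (ψ' w)) z := by
  rw [ddc_eq, ddc_eq]
  have h1 : (fun w => LI 7 (om ψ w)) =ᶠ[𝓝 z] fun w => LI 7 (om ψ' w) := by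
    filter_upwards [h.fderiv (𝕜 := ℝ)] with w hw
    unfold om
    rw [hw]
  rw [h1.extDeriv_eq]

theorem ddc_neg {ψ : E7 → ℝ} {z : E7} :
    ddc (fun w => cst 7 ((-1) * ψ w)) z = - ddc (fun w => cst 7 (ψ w)) z := by
  rw [ddc_eq, ddc_eq]
  have h : (fun w => LI 7 (om (fun w => (-1) * ψ w) w)) = (-1 : ℝ) • fun w => LI 7 (om ψ w) := by
    funext w
    have e : om (fun w => (-1) * ψ w) w = (-1 : ℝ) • om ψ w := by
      unfold om
      have : (fun w => (-1) * ψ w) = (-1 : ℝ) • ψ := rfl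
      rw [this, fderiv_const_smul_field]
      rfl
    rw [e, map_smul]
    rfl
  rw [h, extDeriv_smul]
  simp

theorem ext_dcr_eq (h3 : KfmStmt) {z : E7} (hz : z ∈ U2') :
    extDeriv dcr z = kL z + lp flop kL z - kH z := by
  rw [ext_dcr, (h3.2.2.2 z hz).2.2]
  have e : (fun w => Real.log (rho w)) =ᶠ[𝓝 z]
      fun w => (Real.log (AA w) + Real.log (BB w)) + (-1) * Real.log (DD w) := by
    filter_upwards [isOpen_U2'.mem_nhds hz] with w hw
    exact log_rho hw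
  rw [ddc_congr e, ddc_add isOpen_U2' (cA'.add cBB) cD'' hz, ddc_add isOpen_U2' cA' cBB hz,
    ddc_neg]
  unfold kL kH
  exact (sub_eq_add_neg _ _).symm

/-- the differential of `log B` -/
theorem norm_dlogB {z : E7} (hz : z ∈ U2') :
    ‖fderiv ℝ (fun w => Real.log (BB w)) z‖ ≤ 4 * (√(BB z))⁻¹ := by
  have hB := BB_pos hz
  have hd : ∀ j : Fin 7, HasFDerivAt (fun w : E7 => ‖w j‖ ^ 2)
      (2 • (innerSL ℝ (z j)).comp (ContinuousLinearMap.proj (R := ℝ) (φ := fun _ => ℂ) j)) z :=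
    fun j => ((ContinuousLinearMap.proj (R := ℝ) (φ := fun _ : Fin 7 => ℂ) j).hasFDerivAt
      (x := z)).norm_sq
  have h1 : HasFDerivAt BB _ z := (hd 2).add (hd 3)
  have h2 := h1.log hB.ne'
  rw [h2.fderiv]
  have hs : 0 < √(BB z) := Real.sqrt_pos.mpr hB
  have hs2 : √(BB z) * √(BB z) = BB z := Real.mul_self_sqrt hB.le
  have hj2 : ‖z 2‖ ≤ √(BB z) := Real.le_sqrt_of_sq_le (by unfold BB; nlinarith [sq_nonneg ‖z 3‖])
  have hj3 : ‖z 3‖ ≤ √(BB z) := Real.le_sqrt_of_sq_le (by unfold BB; nlinarith [sq_nonneg ‖z 2‖])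
  refine ContinuousLinearMap.opNorm_le_bound _ (by positivity) fun v => ?_
  have hv2 : ‖v 2‖ ≤ ‖v‖ := norm_le_pi_norm v 2
  have hv3 : ‖v 3‖ ≤ ‖v‖ := norm_le_pi_norm v 3
  have i2 : |inner ℝ (z 2) (v 2)| ≤ √(BB z) * ‖v‖ :=
    (abs_real_inner_le_norm _ _).trans (mul_le_mul hj2 hv2 (norm_nonneg _) hs.le)
  have i3 : |inner ℝ (z 3) (v 3)| ≤ √(BB z) * ‖v‖ :=
    (abs_real_inner_le_norm _ _).trans (mul_le_mul hj3 hv3 (norm_nonneg _) hs.le)
  have e : ((BB z)⁻¹ • (2 • (innerSL ℝ (z 2)).comp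
      (ContinuousLinearMap.proj (R := ℝ) (φ := fun _ : Fin 7 => ℂ) 2) +
      2 • (innerSL ℝ (z 3)).comp (ContinuousLinearMap.proj (R := ℝ) (φ := fun _ : Fin 7 => ℂ) 3))) v
      = (BB z)⁻¹ * (2 * inner ℝ (z 2) (v 2) + 2 * inner ℝ (z 3) (v 3)) := by
    simp [two_smul, two_mul]
    ring
  rw [e, Real.norm_eq_abs, abs_mul, abs_of_pos (inv_pos.mpr hB)]
  have i4 : |2 * inner ℝ (z 2) (v 2) + 2 * inner ℝ (z 3) (v 3)| ≤ 4 * (√(BB z) * ‖v‖) := by
    rw [abs_le] at i2 i3 ⊢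
    constructor <;> linarith [i2.1, i2.2, i3.1, i3.2]
  calc (BB z)⁻¹ * |2 * inner ℝ (z 2) (v 2) + 2 * inner ℝ (z 3) (v 3)|
      ≤ (BB z)⁻¹ * (4 * (√(BB z) * ‖v‖)) :=
        mul_le_mul_of_nonneg_left i4 (inv_nonneg.mpr hB.le)
    _ = 4 * (√(BB z))⁻¹ * ‖v‖ := by
      have hi : (BB z)⁻¹ * √(BB z) = (√(BB z))⁻¹ := by
        rw [eq_comm, inv_eq_iff_eq_inv, mul_inv, inv_inv, ← div_eq_mul_inv, eq_div_iff hs.ne', hs2]
      linear_combination (4 * ‖v‖) * hi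

theorem BB_le {z : E7} (hz : z ∈ Shell) : BB z ≤ 4 := by
  obtain ⟨h1, h2, h3, h4, h5, h6⟩ := hz
  rw [DD_eq] at h4
  have := BB_nonneg z
  nlinarith [sq_nonneg ‖z 4‖]

theorem one_le_inv {z : E7} (hz : z ∈ Shell ∩ U2') : 1 ≤ 4 * (BB z)⁻¹ := by
  have hB := BB_pos hz.2
  have h := BB_le hz.1
  rw [← div_eq_mul_inv, le_div_iff₀ hB]
  linarith

theorem one_le_inv_sqrt {z : E7} (hz : z ∈ Shell ∩ U2') : 1 ≤ 2 * (√(BB z))⁻¹ := by
  have hB := BB_pos hz.2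
  have h := BB_le hz.1
  have hs : √(BB z) ≤ 2 := by
    rw [Real.sqrt_le_left (by norm_num)]
    linarith
  rw [← div_eq_mul_inv, le_div_iff₀ (Real.sqrt_pos.mpr hB)]
  linarith

theorem norm_mulC_le : ‖mulC 7 Complex.I‖ ≤ 1 := by
  refine ContinuousLinearMap.opNorm_le_bound _ zero_le_one fun v => ?_
  show ‖Complex.I • v‖ ≤ 1 * ‖v‖
  rw [norm_smul, Complex.norm_I]

theorem norm_om_le (ψ : E7 → ℝ) (z : E7) : ‖om ψ z‖ ≤ ‖fderiv ℝ ψ z‖ := by
  unfold om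
  calc ‖(fderiv ℝ ψ z).comp (mulC 7 Complex.I)‖ ≤ ‖fderiv ℝ ψ z‖ * ‖mulC 7 Complex.I‖ :=
        ContinuousLinearMap.opNorm_comp_le _ _
    _ ≤ ‖fderiv ℝ ψ z‖ * 1 := mul_le_mul_of_nonneg_left norm_mulC_le (norm_nonneg _)
    _ = _ := mul_one _

theorem norm_LI (c : E7 →L[ℝ] ℝ) : ‖LI 7 c‖ = ‖c‖ :=
  (ContinuousAlternatingMap.ofSubsingletonLIE (𝕜 := ℝ) (E := E7) (F := ℝ) (0 : Fin 1)).norm_map c

theorem norm_dcr_le (z : E7) : ‖dcr z‖ ≤ ‖fderiv ℝ (fun w => Real.log (rho w)) z‖ := by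
  rw [dcr_eq, norm_neg, norm_LI]
  exact norm_om_le _ z

theorem fderiv_rho {z : E7} (hz : z ∈ U2') : fderiv ℝ (fun w => Real.log (rho w)) z =
    fderiv ℝ (fun w => Real.log (AA w)) z + fderiv ℝ (fun w => Real.log (BB w)) z -
      fderiv ℝ (fun w => Real.log (DD w)) z := by
  have e : (fun w => Real.log (rho w)) =ᶠ[𝓝 z]
      fun w => (Real.log (AA w) + Real.log (BB w)) - Real.log (DD w) := by
    filter_upwards [isOpen_U2'.mem_nhds hz] with w hw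
    rw [log_rho hw]
    ring
  rw [e.fderiv_eq]
  exact (((dAt cA' hz).hasFDerivAt.add (dAt cBB hz).hasFDerivAt).sub
    (dAt cD' hz).hasFDerivAt).fderiv

theorem lgr (h1 : BsdStmt) (h2 : BdfStmt) (h3 : KfmStmt) : LgrStmt := by
  have hact : ∀ w ∈ U2', ∀ c : Fin 3 → ℂ, (∀ j, c j ≠ 0) → X2.act c w ∈ U2' :=
    fun _ hw _ hc => act_mem_U2' hc hw
  refine ⟨?_, ?_, ?_, fun z hz => ext_dcr_eq h3 hz⟩
  · have hb := (h1 7 3 4 X2 U2' isOpen_U2' hact).2.1 (fun w => Real.log (rho w))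
      (fun z hz => (dAt cRho hz).differentiableWithinAt) (fun z _ c hc => by
        show Real.log (rho (X2.act c z)) = Real.log (rho z)
        rw [rho_act hc])
    have hI : ∀ (c : Fin 3 → ℂ) (v : E7), Complex.I • X2.act c v = X2.act c (Complex.I • v) := by
      intro c v
      funext m
      simp only [Toric.act, Pi.smul_apply, smul_eq_mul]
      ring
    refine ⟨fun z hz c hc v => ?_, fun z hz v i hi => ?_⟩
    · rw [dcr_eq, dcr_eq]
      show - (fderiv ℝ (fun w => Real.log (rho w)) (X2.act c z) (Complex.I • X2.act c (v 0))) =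
        - (fderiv ℝ (fun w => Real.log (rho w)) z (Complex.I • v 0))
      rw [hI, hb.1 z hz c hc]
    · rw [dcr_eq]
      show - (fderiv ℝ (fun w => Real.log (rho w)) z (Complex.I • v 0)) = 0
      have hi0 : i = 0 := Subsingleton.elim _ _
      subst hi0
      obtain ⟨a, ha⟩ := hi
      rw [hb.2 z hz (Complex.I • v 0) ⟨fun j => Complex.I * a j, fun m => ?_⟩, neg_zero]
      simp only [Pi.smul_apply, smul_eq_mul, ha m]
      rw [← mul_assoc, Finset.mul_sum]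
      congr 1
      exact Finset.sum_congr rfl fun j _ => by ring
  · have e : ContDiffOn ℝ ((⊤ : ℕ∞) : WithTop ℕ∞)
        (fun z => LI 7 (om (fun w => Real.log (rho w)) z)) U2' :=
      (LI 7).contDiff.comp_contDiffOn (contDiffOn_om isOpen_U2' cRho)
    exact e.neg.congr fun z _ => dcr_eq z
  · have hkL := h3.2.2.1 kL (by simp)
    have hkH := h3.2.2.1 kH (by simp)
    obtain ⟨CA, hCA⟩ := isCompact_Shell.exists_bound_of_continuousOn
      ((cAA.continuousOn_fderiv_of_isOpen isOpen_U (by simp)).mono Shell_subset)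
    obtain ⟨CD, hCD⟩ := isCompact_Shell.exists_bound_of_continuousOn
      ((cDD.continuousOn_fderiv_of_isOpen isOpen_U (by simp)).mono Shell_subset)
    obtain ⟨CL, hCL⟩ := isCompact_Shell.exists_bound_of_continuousOn
      (hkL.2.continuousOn.mono Shell_subset)
    obtain ⟨CH, hCH⟩ := isCompact_Shell.exists_bound_of_continuousOn
      (hkH.2.continuousOn.mono Shell_subset)
    obtain ⟨CF, hCF⟩ := (h2 true 2 kL hkL.1).1 hkL.2.continuousOn
    refine ⟨2 * |CA| + 4 + 2 * |CD| + (4 * |CL| + |CF| + 4 * |CH|), fun z hz => ⟨?_, ?_⟩⟩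
    · have hs : 0 ≤ (√(BB z))⁻¹ := inv_nonneg.mpr (Real.sqrt_nonneg _)
      have a1 := one_le_inv_sqrt hz
      have a2 := hCA z hz.1
      have a3 := hCD z hz.1
      have a4 := norm_dlogB hz.2
      have a5 := norm_dcr_le z
      rw [fderiv_rho hz.2] at a5
      have a6 := norm_sub_le (fderiv ℝ (fun w => Real.log (AA w)) z +
        fderiv ℝ (fun w => Real.log (BB w)) z) (fderiv ℝ (fun w => Real.log (DD w)) z)
      have a7 := norm_add_le (fderiv ℝ (fun w => Real.log (AA w)) z)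
        (fderiv ℝ (fun w => Real.log (BB w)) z)
      have b1 : CA ≤ |CA| * (2 * (√(BB z))⁻¹) :=
        (le_abs_self _).trans (le_mul_of_one_le_right (abs_nonneg _) a1)
      have b2 : CD ≤ |CD| * (2 * (√(BB z))⁻¹) :=
        (le_abs_self _).trans (le_mul_of_one_le_right (abs_nonneg _) a1)
      have b3 : 0 ≤ (4 * |CL| + |CF| + 4 * |CH|) * (√(BB z))⁻¹ := by positivity
      linarith
    · have hs : 0 ≤ (BB z)⁻¹ := inv_nonneg.mpr (BB_nonneg _)
      have a1 := one_le_inv hz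
      have a2 := hCL z hz.1
      have a3 := hCH z hz.1
      have a4 : ‖lp flop kL z‖ ≤ CF * (√(BB z))⁻¹ ^ 2 := hCF z hz
      rw [inv_pow, Real.sq_sqrt (BB_nonneg z)] at a4
      have a5 : ‖extDeriv dcr z‖ ≤ ‖kL z‖ + ‖lp flop kL z‖ + ‖kH z‖ := by
        rw [ext_dcr_eq h3 hz.2]
        exact (norm_sub_le _ _).trans (add_le_add (norm_add_le _ _) le_rfl)
      have b1 : CL ≤ |CL| * (4 * (BB z)⁻¹) :=
        (le_abs_self _).trans (le_mul_of_one_le_right (abs_nonneg _) a1)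
      have b2 : CH ≤ |CH| * (4 * (BB z)⁻¹) :=
        (le_abs_self _).trans (le_mul_of_one_le_right (abs_nonneg _) a1)
      have b4 : CF * (BB z)⁻¹ ≤ |CF| * (BB z)⁻¹ :=
        mul_le_mul_of_nonneg_right (le_abs_self _) hs
      have b3 : 0 ≤ (2 * |CA| + 4 + 2 * |CD|) * (BB z)⁻¹ := by positivity
      linarith

end Pool.Agent.SIU.H76
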