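import Pool.Agent.Helper15_SIU.Stmts

/-!
# SIU, module LIN: the integrands of `Lam` and `tri` are basic, continuous, integrable
-/

set_option autoImplicit false

open MeasureTheory Filter Topology

namespace Pool.Agent.SIU.H76

theorem basic_mono {N r n k : ℕ} {X : Toric N r n} {V W : Set (Fin N → ℂ)}
    {ω : (Fin N → ℂ) → Alt N k} (h : X.BasicOn V ω) (hW : W ⊆ V) : X.BasicOn W ω :=
  ⟨fun z hz => h.1 z (hW hz), fun z hz => h.2 z (hW hz)⟩

theorem U2'_subset : U2' ⊆ X2.U := fun _ hz => hz.1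

/-- the lifted function is smooth on `U2'` -/
theorem smooth_LL (b : Bool) {f : E7 → ℝ} (hf : InvFn f) :
    ContDiffOn ℝ ((⊤ : ℕ∞) : WithTop ℕ∞) (fun w => f (LL b w)) U2' :=
  hf.1.comp ((LL b).restrictScalars ℝ).contDiff.contDiffOn fun _ hz => (LL_mem b hz).1

theorem inv_LL (b : Bool) {f : E7 → ℝ} (hf : InvFn f) {z : E7} (hz : z ∈ U2')
    {c : Fin 3 → ℂ} (hc : ∀ j, c j ≠ 0) : f (LL b (X2.act c z)) = f (LL b z) := by
  cases b
  · exact hf.2 z hz.1 c hc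
  · show f (flop (X2.act c z)) = f (flop z)
    rw [flop_act hc]
    refine hf.2 _ (flop_mem hz).1 _ ?_
    intro j
    fin_cases j
    · exact mul_ne_zero (inv_ne_zero (hc 0)) (hc 1)
    · exact hc 1
    · exact hc 2

theorem cont_fderiv_LL (b : Bool) {f : E7 → ℝ} (hf : InvFn f) :
    ContinuousOn (fun z => fderiv ℝ (fun w => f (LL b w)) z) U2' :=
  (smooth_LL b hf).continuousOn_fderiv_of_isOpen isOpen_U2' (by simp)

theorem cont_LL (b : Bool) {f : E7 → ℝ} (hf : InvFn f) :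
    ContinuousOn (fun z => f (LL b z)) U2' := (smooth_LL b hf).continuousOn

theorem act_U : ∀ w ∈ X2.U, ∀ c : Fin 3 → ℂ, (∀ j, c j ≠ 0) → X2.act c w ∈ X2.U :=
  fun w hw _ hc => (act_mem_U hc w).mpr hw

theorem act_U2' : ∀ w ∈ U2', ∀ c : Fin 3 → ℂ, (∀ j, c j ≠ 0) → X2.act c w ∈ U2' :=
  fun _ hw _ hc => act_mem_U2' hc hw

/-- the differential of an invariant function as a form of degree one -/
noncomputable def dform (f : E7 → ℝ) (z : E7) : Alt 7 1 :=
  ContinuousAlternatingMap.ofSubsingletonLIE (𝕜 := ℝ) (E := E7) (F := ℝ) (0 : Fin 1)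
    (fderiv ℝ f z)

theorem dform_apply (f : E7 → ℝ) (z : E7) (v : Fin 1 → E7) : dform f z v = fderiv ℝ f z (v 0) :=
  rfl

theorem dbound (h3 : BsdStmt) (h4 : BdfStmt) (b : Bool) {f : E7 → ℝ} (hf : InvFn f) :
    ∃ C : ℝ, ∀ z ∈ Shell ∩ U2', ‖fderiv ℝ (fun w => f (LL b w)) z‖ ≤ C * (√(BB z))⁻¹ := by
  have hd : DifferentiableOn ℝ f X2.U := hf.1.differentiableOn (by simp)
  have hb := (h3 7 3 4 X2 X2.U isOpen_U act_U).2.1 f hd hf.2
  have hbas : X2.BasicOn X2.U (dform f) := by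
    refine ⟨fun z hz c hc v => ?_, fun z hz v i hi => ?_⟩
    · rw [dform_apply, dform_apply]
      exact hb.1 z hz c hc (v 0)
    · rw [dform_apply]
      have : i = 0 := Subsingleton.elim _ _
      subst this
      exact hb.2 z hz _ hi
  have hcont : ContinuousOn (dform f) X2.U :=
    (ContinuousAlternatingMap.ofSubsingletonLIE (𝕜 := ℝ) (E := E7) (F := ℝ)
      (0 : Fin 1)).continuous.comp_continuousOn
      (hf.1.continuousOn_fderiv_of_isOpen isOpen_U (by simp))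
  obtain ⟨C, hC⟩ := (h4 b 1 (dform f) hbas).1 hcont
  refine ⟨C, fun z hz => ?_⟩
  have h := hC z hz
  rw [pow_one] at h
  refine le_trans (le_of_eq ?_) h
  have hfd : HasFDerivAt (fun w => f (LL b w))
      ((fderiv ℝ f (LL b z)).comp ((LL b).restrictScalars ℝ)) z := by
    have h1 : DifferentiableAt ℝ f (LL b z) :=
      (hd _ (LL_mem b hz.2).1).differentiableAt (isOpen_U.mem_nhds (LL_mem b hz.2).1)
    exact HasFDerivAt.comp z h1.hasFDerivAt ((LL b).restrictScalars ℝ).hasFDerivAt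
  rw [hfd.fderiv]
  have he : lp (LL b) (dform f) z = ContinuousAlternatingMap.ofSubsingletonLIE (𝕜 := ℝ)
      (E := E7) (F := ℝ) (0 : Fin 1)
      ((fderiv ℝ f (LL b z)).comp ((LL b).restrictScalars ℝ)) := by
    ext v
    rfl
  rw [he, LinearIsometryEquiv.norm_map]

theorem inv_sqrt_sq (z : E7) : (√(BB z))⁻¹ * (√(BB z))⁻¹ = (BB z)⁻¹ := by
  rw [← mul_inv, Real.mul_self_sqrt (BB_nonneg z)]

theorem key4 (n : ℕ) {x y u v X Y U V : ℝ} (hx : 0 ≤ x) (hy : 0 ≤ y) (hu : 0 ≤ u)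
    (hv : 0 ≤ v) (h1 : x ≤ X) (h2 : y ≤ Y) (h3 : u ≤ U) (h4 : v ≤ V) :
    x * (((n : ℝ) + 1 + 1) * (y * (((n : ℝ) + 1) * (u * v)))) ≤
      X * (((n : ℝ) + 1 + 1) * (Y * (((n : ℝ) + 1) * (U * V)))) := by
  have hX := hx.trans h1
  have hY := hy.trans h2
  have hU := hu.trans h3
  have hV := hv.trans h4
  gcongr

theorem wcont {N k l : ℕ} (h1 : WdgStmt) :
    Continuous (fun p : Alt N k × Alt N l => wedge p.1 p.2) := by
  have h := (h1 N k l).2.2.2.2.1 0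
  exact h.continuous

theorem gcont {X A B C : Type*} [TopologicalSpace X] [TopologicalSpace A] [TopologicalSpace B]
    [TopologicalSpace C] (w : A → B → C) (h : Continuous (fun p : A × B => w p.1 p.2))
    (V : Set X) (K : X → A) (η : X → B) (hK : ContinuousOn K V) (hη : ContinuousOn η V) :
    ContinuousOn (fun z => w (K z) (η z)) V := h.comp_continuousOn (hK.prodMk hη)

section lam

variable {k l : ℕ} (K : E7 → Alt 7 k) (η : E7 → Alt 7 l)

/-- the general integrand -/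
noncomputable def lg (z : E7) : Alt 7 (k + l) := wedge (K z) (η z)

theorem lg_basic (h1 : WdgStmt) (hK : X2.BasicOn U2' K) (hη : X2.BasicOn U2' η) :
    X2.BasicOn U2' (lg K η) := (h1 7 k l).2.2.2.2.2.2 3 4 X2 U2' K η hK hη

theorem lg_cont (h1 : WdgStmt) (hK : ContinuousOn K U2') (hη : ContinuousOn η U2') :
    ContinuousOn (lg K η) U2' := gcont wedge (wcont h1) U2' K η hK hη

theorem lg_norm (h1 : WdgStmt) : ∃ C : ℝ, ∀ z : E7, ‖lg K η z‖ ≤ C * ‖K z‖ * ‖η z‖ := by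
  obtain ⟨C, hC⟩ := (h1 7 k l).2.2.2.2.2.1
  exact ⟨C, fun z => hC (K z) (η z)⟩

end lam

section tri

variable {k : ℕ} (K : E7 → Alt 7 k) (a : E7 → ℝ) (df dg : E7 → E7 →L[ℝ] ℝ)

/-- the general integrand -/
noncomputable def tg (z : E7) : Alt 7 (k + 1 + 1) := a z • w1 (df z) (w1 (dg z) (K z))

theorem tg_basic (h2 : WonStmt) (hK : X2.BasicOn U2' K)
    (ha : ∀ z ∈ U2', ∀ c : Fin 3 → ℂ, (∀ j, c j ≠ 0) → a (X2.act c z) = a z)
    (hf : ∀ z ∈ U2', ∀ g : Fin 3 → ℂ, (∀ j, g j ≠ 0) → ∀ v,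
      df (X2.act g z) (X2.act g v) = df z v)
    (hf' : ∀ z ∈ U2', ∀ v, X2.Vert z v → df z v = 0)
    (hg : ∀ z ∈ U2', ∀ g : Fin 3 → ℂ, (∀ j, g j ≠ 0) → ∀ v,
      dg (X2.act g z) (X2.act g v) = dg z v)
    (hg' : ∀ z ∈ U2', ∀ v, X2.Vert z v → dg z v = 0) :
    X2.BasicOn U2' (tg K a df dg) := by
  have e1 := (h2 7 k).2.2.2.2.2.2.2.2 3 4 X2 U2' dg K hg hg' hK
  have e2 := (h2 7 (k + 1)).2.2.2.2.2.2.2.2 3 4 X2 U2' df _ hf hf' e1
  refine ⟨fun z hz c hc v => ?_, fun z hz v i hi => ?_⟩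
  · have h := e2.1 z hz c hc v
    show a (X2.act c z) * (w1 (df (X2.act c z)) (w1 (dg (X2.act c z)) (K (X2.act c z))))
      (fun i => X2.act c (v i)) = a z * (w1 (df z) (w1 (dg z) (K z))) v
    rw [ha z hz c hc]
    exact congrArg (fun t : ℝ => a z * t) h
  · have h := e2.2 z hz v i hi
    exact (congrArg (fun t : ℝ => a z * t) h).trans (mul_zero _)

theorem tg_cont (h2 : WonStmt) (hK : ContinuousOn K U2') (ha : ContinuousOn a U2')
    (hf : ContinuousOn df U2') (hg : ContinuousOn dg U2') :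
    ContinuousOn (tg K a df dg) U2' := by
  have e1 : ContinuousOn (fun z => w1 (dg z) (K z)) U2' :=
    ((h2 7 k).2.2.2.2.2.2.1 0).continuous.comp_continuousOn (hg.prodMk hK)
  have e2 : ContinuousOn (fun z => w1 (df z) (w1 (dg z) (K z))) U2' :=
    ((h2 7 (k + 1)).2.2.2.2.2.2.1 0).continuous.comp_continuousOn (hf.prodMk e1)
  exact ha.smul e2

theorem tg_norm (h2 : WonStmt) (z : E7) :
    ‖tg K a df dg z‖ ≤ |a z| * (((k : ℝ) + 1 + 1) * (‖df z‖ * (((k : ℝ) + 1) *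
      (‖dg z‖ * ‖K z‖)))) := by
  have e1 := (h2 7 k).2.2.2.2.2.1 (dg z) (K z)
  have e2 := (h2 7 (k + 1)).2.2.2.2.2.1 (df z) (w1 (dg z) (K z))
  unfold tg
  rw [norm_smul, Real.norm_eq_abs]
  refine mul_le_mul_of_nonneg_left (e2.trans ?_) (abs_nonneg _)
  push_cast
  gcongr

end tri

theorem lin (h1 : WdgStmt) (h2 : WonStmt) (h3 : BsdStmt) (h4 : BdfStmt) (h5 : IshStmt)
    (h6 : DctStmt) : LinStmt := by
  intro b K hKc hKb
  have hKb' := basic_mono hKb U2'_subset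
  have hKc' := hKc.mono U2'_subset
  obtain ⟨CK, hCK⟩ := isCompact_Shell.exists_bound_of_continuousOn (hKc.mono Shell_subset)
  have hint : ∀ C : ℝ, IntegrableOn (fun z : E7 => C * (BB z)⁻¹) Shell := fun C =>
    h5.1.const_mul C
  refine ⟨fun η hηc hηb => ?_, fun a f g ha hf hg => ?_⟩
  · have d := h4 b 2 η hηb
    have q1 : X2.BasicOn U2' (lamF b K η) :=
      lg_basic K (lp (LL b) η) h1 hKb' d.2.2.1
    have q2 : ContinuousOn (lamF b K η) U2' :=
      lg_cont K (lp (LL b) η) h1 hKc' (d.2.1 0 (contDiffOn_zero.mpr hηc)).continuousOn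
    have q3 : ∃ C : ℝ, ∀ z ∈ Shell ∩ U2', ‖lamF b K η z‖ ≤ C * (BB z)⁻¹ := by
      obtain ⟨C1, hC1⟩ := lg_norm K (lp (LL b) η) h1
      obtain ⟨C2, hC2⟩ := d.1 hηc
      refine ⟨|C1| * |CK| * |C2|, fun z hz => ?_⟩
      have e1 : ‖lamF b K η z‖ ≤ _ := hC1 z
      have e2 := hC2 z hz
      have e3 := hCK z hz.1
      rw [pow_two, inv_sqrt_sq] at e2
      have hB : 0 ≤ (BB z)⁻¹ := inv_nonneg.mpr (BB_nonneg z)
      calc ‖lamF b K η z‖ ≤ C1 * ‖K z‖ * ‖lp (LL b) η z‖ := e1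
        _ ≤ |C1| * |CK| * (|C2| * (BB z)⁻¹) := by
          gcongr
          · exact le_abs_self _
          · exact e3.trans (le_abs_self _)
          · exact e2.trans (mul_le_mul_of_nonneg_right (le_abs_self _) hB)
        _ = |C1| * |CK| * |C2| * (BB z)⁻¹ := by ring
    refine ⟨q1, q2, q3, ?_⟩
    obtain ⟨C, hC⟩ := q3
    exact h6.1 (lamF b K η) (fun z => C * (BB z)⁻¹) q2 q1 (hint C)
      fun z hz _ _ _ => hC z hz
  · have hbsd : ∀ f : E7 → ℝ, InvFn f →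
        (∀ z ∈ U2', ∀ c : Fin 3 → ℂ, (∀ j, c j ≠ 0) → ∀ v,
          fderiv ℝ (fun w => f (LL b w)) (X2.act c z) (X2.act c v) =
            fderiv ℝ (fun w => f (LL b w)) z v) ∧
        (∀ z ∈ U2', ∀ v, X2.Vert z v → fderiv ℝ (fun w => f (LL b w)) z v = 0) :=
      fun f hf => (h3 7 3 4 X2 U2' isOpen_U2' act_U2').2.1 (fun w => f (LL b w))
        ((smooth_LL b hf).differentiableOn (by simp)) fun z hz c hc => inv_LL b hf hz hc
    have q1 : X2.BasicOn U2' (triF b K a f g) :=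
      tg_basic K (fun z => a (LL b z)) (fun z => fderiv ℝ (fun w => f (LL b w)) z)
        (fun z => fderiv ℝ (fun w => g (LL b w)) z) h2 hKb'
        (fun z hz c hc => inv_LL b ha hz hc) (hbsd f hf).1 (hbsd f hf).2 (hbsd g hg).1
        (hbsd g hg).2
    have q2 : ContinuousOn (triF b K a f g) U2' :=
      tg_cont K (fun z => a (LL b z)) (fun z => fderiv ℝ (fun w => f (LL b w)) z)
        (fun z => fderiv ℝ (fun w => g (LL b w)) z) h2 hKc' (cont_LL b ha)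
        (cont_fderiv_LL b hf) (cont_fderiv_LL b hg)
    have q3 : ∃ C : ℝ, ∀ z ∈ Shell ∩ U2', ‖triF b K a f g z‖ ≤ C * (BB z)⁻¹ := by
      obtain ⟨Ca, hCa⟩ := ha.bounded
      obtain ⟨Cf, hCf⟩ := dbound h3 h4 b hf
      obtain ⟨Cg, hCg⟩ := dbound h3 h4 b hg
      refine ⟨|Ca| * (((6 : ℕ) : ℝ) + 1 + 1) * (((6 : ℕ) : ℝ) + 1) * |Cf| * |Cg| * |CK|,
        fun z hz => ?_⟩
      have e1 : ‖triF b K a f g z‖ ≤ _ :=
        tg_norm K (fun z => a (LL b z)) (fun z => fderiv ℝ (fun w => f (LL b w)) z)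
          (fun z => fderiv ℝ (fun w => g (LL b w)) z) h2 z
      have e2 := hCf z hz
      have e3 := hCg z hz
      have e4 := hCK z hz.1
      have e5 := hCa _ (LL_mem b hz.2).1
      have hB : 0 ≤ (√(BB z))⁻¹ := inv_nonneg.mpr (Real.sqrt_nonneg _)
      refine e1.trans ((key4 _ (abs_nonneg _) (norm_nonneg _) (norm_nonneg _) (norm_nonneg _)
        (e5.trans (le_abs_self _))
        (e2.trans (mul_le_mul_of_nonneg_right (le_abs_self _) hB))
        (e3.trans (mul_le_mul_of_nonneg_right (le_abs_self _) hB))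
        (e4.trans (le_abs_self _))).trans (le_of_eq ?_))
      rw [← inv_sqrt_sq]
      ring
    refine ⟨q1, q2, q3, ?_⟩
    obtain ⟨C, hC⟩ := q3
    exact h6.1 (triF b K a f g) (fun z => C * (BB z)⁻¹) q2 q1 (hint C)
      fun z hz _ _ _ => hC z hz

end Pool.Agent.SIU.H76
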